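import Pool.Agent.Lib_helper45.W2.Final

/-!
A bounded solution of a damped wave equation on a square, with periodic forcing and a
nondecreasing Lipschitz damping, whose orbit is not relatively compact in the energy space.
-/

open MeasureTheory Set
open scoped NNReal

namespace Pool.Agent.Results.MP_4a11c8_an.Disproof

open Pool.Agent.WaveND

/-- **Non precompactness of a bounded orbit.** -/
theorem result : IsBoundedDomain square ∧
    ∃ (g : ℝ → ℝ) (f : ℝ → L2 square) (U : ℝ → EnergySpace square),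
      Monotone g ∧ LipschitzWith 1 g ∧ (∀ v : ℝ, g (-v) = -g v) ∧ IsPeriodicForcing f 1 ∧
      IsSolution square g f U ∧ IsBoundedOrbit U ∧ ¬ IsPrecompactOrbit U := by
  obtain ⟨f, U, hf, hs, hb, hc⟩ := Pool.Agent.Lib_helper45.W2.counterexample
  exact ⟨⟨Pool.Agent.Lib_helper45.W2.isOpen_Sq, Pool.Agent.Lib_helper45.W2.isConnected_Sq,
    Pool.Agent.Lib_helper45.W2.isBounded_Sq⟩, Pool.Agent.Lib_helper45.W2.gf, f, U,
    Pool.Agent.Lib_helper45.W2.gf_mono, Pool.Agent.Lib_helper45.W2.gf_lip,
    Pool.Agent.Lib_helper45.W2.gf_neg, hf, hs, hb, hc⟩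

end Pool.Agent.Results.MP_4a11c8_an.Disproof
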