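import Pool.Agent.Lib_helper45.Reduction

/-!
Precompactness of bounded orbits of the damped string equation
`∂_t² u - ∂_x² u + g(∂_t u) = f(t)` on a bounded interval, Dirichlet conditions,
for every nondecreasing globally Lipschitz `g` and every continuous periodic `f`.
-/

open MeasureTheory Set Filter Topology
open scoped NNReal ENNReal ContDiff

namespace Pool.Agent.Results.MP_4a11c8_an.OneDim

open Pool.Agent.Wave1D Pool.Agent.Lib_helper45

/-- The circle state of an element of the energy space. -/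
noncomputable def toCirc (a b : ℝ) [Fact (0 < len a b)] (V : EnergySpace a b) : XT (len a b) :=
  st V.dx V.vel

theorem dist_energy {a b : ℝ} (V W : EnergySpace a b) :
    dist V W = max (max ‖V.pos - W.pos‖ ‖V.dx - W.dx‖) ‖V.vel - W.vel‖ := by
  rw [Subtype.dist_eq, Prod.dist_eq, Prod.dist_eq, dist_eq_norm, dist_eq_norm, dist_eq_norm]
  rfl

theorem toCirc_lip {a b : ℝ} [Fact (0 < len a b)] : LipschitzWith 2 (toCirc a b) := by
  refine LipschitzWith.of_dist_le_mul fun V W => ?_
  rw [dist_energy, dist_eq_norm, toCirc, toCirc, ← st_sub]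
  refine (norm_st_le _ _).trans ?_
  have h : max ‖V.dx - W.dx‖ ‖V.vel - W.vel‖ ≤
      max (max ‖V.pos - W.pos‖ ‖V.dx - W.dx‖) ‖V.vel - W.vel‖ :=
    max_le_max (le_max_right _ _) le_rfl
  exact mul_le_mul_of_nonneg_left h (by norm_num)

theorem toCirc_anti {a b : ℝ} [Fact (0 < len a b)] :
    ∃ K : ℝ≥0, AntilipschitzWith K (toCirc a b) := by
  obtain ⟨C, hC, h⟩ := EnergySpace.dist_pos_le a b
  refine ⟨⟨max C 1, by positivity⟩, AntilipschitzWith.of_le_mul_dist fun V W => ?_⟩
  change dist V W ≤ max C 1 * dist (toCirc a b V) (toCirc a b W)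
  rw [dist_energy, dist_eq_norm, toCirc, toCirc, ← st_sub]
  set N := ‖st (V.dx - W.dx) (V.vel - W.vel)‖ with hN
  have hN0 : 0 ≤ N := norm_nonneg _
  have h1 : ‖V.dx - W.dx‖ ≤ N := le_norm_st_left _ _
  have h2 : ‖V.vel - W.vel‖ ≤ N := le_norm_st_right _ _
  have h3 : ‖V.pos - W.pos‖ ≤ max C 1 * N :=
    (h V W).trans ((mul_le_mul_of_nonneg_left h1 hC).trans
      (mul_le_mul_of_nonneg_right (le_max_left _ _) hN0))
  have h4 : N ≤ max C 1 * N := by
    have : 1 * N ≤ max C 1 * N := mul_le_mul_of_nonneg_right (le_max_right _ _) hN0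
    linarith
  exact max_le (max_le h3 (h1.trans h4)) (h2.trans h4)

/-- **Precompactness of bounded orbits in dimension one.** -/
theorem result (a b : ℝ) (hab : a < b) (g : ℝ → ℝ) (hg : Monotone g) (L : ℝ≥0)
    (hL : LipschitzWith L g) (τ : ℝ) (hτ : 0 < τ) (f : ℝ → L2 a b) (hf : Continuous f)
    (hper : Function.Periodic f τ) (U : ℝ → EnergySpace a b) (hU : IsSolution a b g f U)
    (hb : ∃ C : ℝ, ∀ t : ℝ, 0 ≤ t → ‖(U t).dx‖ ≤ C ∧ ‖(U t).vel‖ ≤ C) :
    IsCompact (closure (U '' Ici 0)) := by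
  have hT : Fact (0 < len a b) := ⟨by unfold len; linarith⟩
  have hd := isDamping (a := a) (b := b) hg hL
  have hsol := isSol hg hL hf hU
  have hcF : Continuous fun t => odx (f t) := odx_continuous.comp hf
  obtain ⟨B, hB⟩ := isCompact_Icc.exists_bound_of_continuousOn (s := Icc (0 : ℝ) τ)
    hcF.continuousOn
  have hBall : ∀ t, ‖odx (f t)‖ ≤ B := by
    intro t
    obtain ⟨y, hy, hty⟩ := hper.exists_mem_Ico₀ hτ t
    rw [hty]
    exact hB y ⟨hy.1, hy.2.le⟩
  have hperF : ∀ t, odx (f (t + τ)) = odx (f t) := fun t => by rw [hper t]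
  obtain ⟨C, hC⟩ := hb
  have hCp : ∀ t, 0 ≤ t → ‖st (xt U t).dx (xt U t).vel‖ ≤ 2 * C := by
    intro t ht
    rw [xt_of_nonneg ht]
    refine (norm_st_le _ _).trans ?_
    exact mul_le_mul_of_nonneg_left (max_le (hC t ht).1 (hC t ht).2) (by norm_num)
  have htb := totallyBounded_orbit hd hcF hBall hτ hperF hsol hCp
  obtain ⟨K, hK⟩ := toCirc_anti (a := a) (b := b)
  have hui : IsUniformInducing (toCirc a b) :=
    hK.isUniformInducing toCirc_lip.uniformContinuous
  have hpre := totallyBounded_preimage hui htb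
  have hsub : U '' Ici 0 ⊆ toCirc a b ⁻¹' ((fun t => st (xt U t).dx (xt U t).vel) '' Ici 0) := by
    rintro _ ⟨t, ht, rfl⟩
    refine ⟨t, ht, ?_⟩
    change st (xt U t).dx (xt U t).vel = toCirc a b (U t)
    rw [xt_of_nonneg ht]
    rfl
  have hcl : IsClosed {V : (L2 a b × L2 a b) × L2 a b | V.1 ∈ H10 a b} :=
    isClosed_closure.preimage continuous_fst
  have hcomp : CompleteSpace (EnergySpace a b) := hcl.completeSpace_coe
  exact (hpre.subset hsub).closure.isCompact_of_isClosed isClosed_closure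

end Pool.Agent.Results.MP_4a11c8_an.OneDim
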